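import Pool.Agent.Y288.SB.Main

/-!
The boundary of a bounded spectral set.
-/

set_option autoImplicit false

namespace Pool.Agent.Results.MP_53fa4a_an.EssentialBoundary

open MeasureTheory Set Pool.Agent.Helper569.Spec
open Pool.Agent.Y288.SB (essCl)

/-- **The boundary of a bounded spectral set.** `essCl S` is the essential closure of `S`: the set
of the points all of whose balls meet `S` in positive measure. In every dimension `d`:

(1) for every bounded measurable spectral set `Ω`, the part of the essential boundary
`essCl Ω ∩ essCl Ωᶜ` inside `Ω` has at most the measure of the part outside `Ω`;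

(2) a compact spectral set has a null boundary, so it differs from its interior by a null set;

(3) a bounded measurable nowhere dense spectral set `Ω` satisfies `|essCl Ω| ≥ 2 |Ω|`. -/
theorem result (d : ℕ) :
    (∀ Ω : Set (E d), MeasurableSet Ω → Bornology.IsBounded Ω → IsSpectral Ω →
      volume (Ω ∩ (essCl Ω ∩ essCl Ωᶜ)) ≤ volume ((essCl Ω ∩ essCl Ωᶜ) \ Ω)) ∧
    (∀ Ω : Set (E d), IsCompact Ω → IsSpectral Ω → volume (frontier Ω) = 0) ∧
    (∀ Ω : Set (E d), MeasurableSet Ω → Bornology.IsBounded Ω → IsNowhereDense Ω → IsSpectral Ω →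
      2 * volume Ω ≤ volume (essCl Ω)) :=
  ⟨fun Ω hm hb hs => Pool.Agent.Y288.SB.main_ess Ω hm hb hs,
    fun Ω hc hs => Pool.Agent.Y288.SB.compact_frontier Ω hc hs,
    fun Ω hm hb hn hs => Pool.Agent.Y288.SB.nowhere_dense Ω hm hb hn hs⟩

end Pool.Agent.Results.MP_53fa4a_an.EssentialBoundary
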